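import Pool.Agent.Helper79.GS.St5

/-!
# Project GS, module EB2: placements and areas are E2
-/

set_option autoImplicit false

namespace Pool.Agent.Helper29.GS

open Pool.Agent.Helper79.GS Pool.Agent.Helper19.SK Pool.Agent.Helper73.DC Finset
open scoped Classical

namespace EB2

theorem e_ite' {p : List (Fin 5) → (ℕ → ℕ) → Prop} {F G : VF (Fin 5)}
    {inst : ∀ w v, Decidable (p w v)} (hp : E2P p) (hF : E2 F) (hG : E2 G) :
    E2 (fun w v => @ite ℕ (p w v) (inst w v) (F w v) (G w v)) := by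
  convert e_ite hp hF hG

theorem e_eqP {p q : List (Fin 5) → (ℕ → ℕ) → Prop} (hp : E2P p) (h : ∀ w v, q w v ↔ p w v) :
    E2P q := by
  have e : q = p := by
    funext w v
    exact propext (h w v)
  rw [e]
  exact hp

variable (hEB1 : StEB1)
include hEB1

theorem e_clr {N n C U X : VF (Fin 5)} (hN : E2 N) (hn : E2 n) (hC : E2 C) (hU : E2 U)
    (hX : E2 X) : E2P (fun w v => clrN (N w v) (n w v) (C w v) (U w v) (X w v)) := by
  unfold clrN
  refine e_all (p := fun w i v => dg 3 (X w v) i =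
    if dg 3 (U w v) i = colN (C w v) ∧ ¬ tchN (N w v) (n w v) (U w v) i 0 then 0
    else dg 3 (U w v) i) (H := fun w v => n w v * n w v) ?_ (e_mul hn hn)
  refine e_eq (e_dg (e_con 3) (e_sh hX) (e_get 0)) (e_ite' (e_and
    (e_eq (e_dg (e_con 3) (e_sh hU) (e_get 0)) (hEB1.2.1 _ (e_sh hC)))
    (e_not (hEB1.2.2 _ _ _ _ _ (e_sh hN) (e_sh hn) (e_sh hU) (e_get 0) (e_con 0))))
    (e_con 0) (e_dg (e_con 3) (e_sh hU) (e_get 0)))

theorem e_put {n C U E U1 : VF (Fin 5)} (hn : E2 n) (hC : E2 C) (hU : E2 U) (hE : E2 E)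
    (hU1 : E2 U1) : E2P (fun w v => ∀ x < n w v * n w v,
      dg 3 (U1 w v) x = if x = E w v then colN (C w v) else dg 3 (U w v) x) := by
  refine e_all (p := fun w i v => dg 3 (U1 w v) i =
    if i = E w v then colN (C w v) else dg 3 (U w v) i) (H := fun w v => n w v * n w v) ?_
    (e_mul hn hn)
  exact e_eq (e_dg (e_con 3) (e_sh hU1) (e_get 0)) (e_ite' (e_eq (e_get 0) (e_sh hE))
    (hEB1.2.1 _ (e_sh hC)) (e_dg (e_con 3) (e_sh hU) (e_get 0)))

theorem e_play {N n C U E X : VF (Fin 5)} (hN : E2 N) (hn : E2 n) (hC : E2 C) (hU : E2 U)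
    (hE : E2 E) (hX : E2 X) :
    E2P (fun w v => playN (N w v) (n w v) (C w v) (U w v) (E w v) (X w v)) := by
  unfold playN
  refine e_ex (p := fun w u1 v => ∃ u2 < pw (N w v) 3 (n w v * n w v),
    (∀ x < n w v * n w v, dg 3 u1 x = if x = E w v then colN (C w v) else dg 3 (U w v) x) ∧
    clrN (N w v) (n w v) (1 - C w v) u1 u2 ∧ clrN (N w v) (n w v) (C w v) u2 (X w v))
    (H := fun w v => pw (N w v) 3 (n w v * n w v)) ?_ (e_pw hN (e_con 3) (e_mul hn hn))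
  refine e_ex (p := fun w u2 v => (∀ x < n w (fun i => v (i + 1)) * n w (fun i => v (i + 1)),
    dg 3 (v 0) x = if x = E w (fun i => v (i + 1)) then colN (C w (fun i => v (i + 1)))
      else dg 3 (U w (fun i => v (i + 1))) x) ∧
    clrN (N w (fun i => v (i + 1))) (n w (fun i => v (i + 1))) (1 - C w (fun i => v (i + 1)))
      (v 0) u2 ∧
    clrN (N w (fun i => v (i + 1))) (n w (fun i => v (i + 1))) (C w (fun i => v (i + 1))) u2
      (X w (fun i => v (i + 1))))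
    (H := fun w v => pw (N w (fun i => v (i + 1))) 3
      (n w (fun i => v (i + 1)) * n w (fun i => v (i + 1)))) ?_
    (e_pw (e_sh hN) (e_con 3) (e_mul (e_sh hn) (e_sh hn)))
  refine e_and ?_ (e_and ?_ ?_)
  · exact e_put hEB1 (e_sh (e_sh hn)) (e_sh (e_sh hC)) (e_sh (e_sh hU)) (e_sh (e_sh hE)) (e_get 1)
  · exact e_clr hEB1 (e_sh (e_sh hN)) (e_sh (e_sh hn)) (e_sub (e_con 1) (e_sh (e_sh hC)))
      (e_get 1) (e_get 0)
  · exact e_clr hEB1 (e_sh (e_sh hN)) (e_sh (e_sh hn)) (e_sh (e_sh hC)) (e_get 0)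
      (e_sh (e_sh hX))

theorem e_mv {N n C U X : VF (Fin 5)} (hN : E2 N) (hn : E2 n) (hC : E2 C) (hU : E2 U)
    (hX : E2 X) : E2P (fun w v => Pool.Agent.Helper79.GS.mvN (N w v) (n w v) (C w v) (U w v) (X w v)) := by
  unfold Pool.Agent.Helper79.GS.mvN
  refine e_and (e_lt hU (e_pw hN (e_con 3) (e_mul hn hn)))
    (e_and (e_lt hX (e_pw hN (e_con 3) (e_mul hn hn))) (e_and (e_ne hX hU) ?_))
  refine e_ex (p := fun w e v => dg 3 (U w v) e = 0 ∧
    playN (N w v) (n w v) (C w v) (U w v) e (X w v)) (H := fun w v => n w v * n w v) ?_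
    (e_mul hn hn)
  exact e_and (e_eq (e_dg (e_con 3) (e_sh hU) (e_get 0)) (e_con 0))
    (e_play hEB1 (e_sh hN) (e_sh hn) (e_sh hC) (e_sh hU) (e_get 0) (e_sh hX))

theorem e_area {N n C U : VF (Fin 5)} (hN : E2 N) (hn : E2 n) (hC : E2 C) (hU : E2 U) :
    E2 (fun w v => areaN (N w v) (n w v) (C w v) (U w v)) := by
  unfold areaN
  refine e_sum (T := fun w i v => if dg 3 (U w v) i = colN (C w v) ∨
    (dg 3 (U w v) i = 0 ∧ tchN (N w v) (n w v) (U w v) i (colN (C w v)) ∧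
      ¬ tchN (N w v) (n w v) (U w v) i (colN (1 - C w v))) then 1 else 0)
    (H := fun w v => n w v * n w v) ?_ (e_mul hn hn)
  refine e_ite' (e_or (e_eq (e_dg (e_con 3) (e_sh hU) (e_get 0)) (hEB1.2.1 _ (e_sh hC)))
    (e_and (e_eq (e_dg (e_con 3) (e_sh hU) (e_get 0)) (e_con 0)) (e_and
      (hEB1.2.2 _ _ _ _ _ (e_sh hN) (e_sh hn) (e_sh hU) (e_get 0) (hEB1.2.1 _ (e_sh hC)))
      (e_not (hEB1.2.2 _ _ _ _ _ (e_sh hN) (e_sh hn) (e_sh hU) (e_get 0)
        (hEB1.2.1 _ (e_sub (e_con 1) (e_sh hC)))))))) (e_con 1) (e_con 0)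

end EB2

open EB2

theorem hEB2 (hEB1 : StEB1) : StEB2 := by
  refine ⟨fun N n C U X hN hn hC hU hX => e_clr hEB1 hN hn hC hU hX,
    fun N n C U E X hN hn hC hU hE hX => e_play hEB1 hN hn hC hU hE hX,
    fun N n C U X hN hn hC hU hX => ⟨e_mv hEB1 hN hn hC hU hX, ?_⟩,
    fun N n C U hN hn hC hU => ⟨e_area hEB1 hN hn hC hU, ?_, ?_⟩⟩
  · unfold rvN
    exact e_and (e_mv hEB1 hN hn hC hU hX) (e_mv hEB1 hN hn (e_sub (e_con 1) hC) hX hU)
  · have h1 := e_lt (e_area hEB1 hN hn (e_con 0) hU) (e_area hEB1 hN hn (e_con 1) hU)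
    refine e_eqP (e_or (e_and (e_eq hC (e_con 1)) h1) (e_and (e_not (e_eq hC (e_con 1)))
      (e_not h1))) ?_
    intro w v
    unfold ahN
    by_cases hc : C w v = 1
    · simp [hc]
    · simp [hc]
  · unfold idN
    exact e_ite' (e_eq hC (e_con 1))
      (e_add (e_div (e_sub (e_area hEB1 hN hn (e_con 0) hU) (e_area hEB1 hN hn (e_con 1) hU))
        (e_con 4)) (e_con 1))
      (e_add (e_div (e_sub (e_sub (e_area hEB1 hN hn (e_con 1) hU)
        (e_area hEB1 hN hn (e_con 0) hU)) (e_con 1)) (e_con 4)) (e_con 1))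

end Pool.Agent.Helper29.GS
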