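import Pool.Agent.Helper79.GS.St3

/-!
# Project GS, module TRF: the determinant is an entry of a power of the transfer matrix
-/

set_option autoImplicit false

namespace Pool.Agent.Helper29.GS

open Pool.Agent.Helper79.GS

namespace TRF

/-- The transfer matrix. -/
def TT (n : ℕ) (a : ℕ → ℕ → ℤ) : Matrix (Fin ((n + 1) * (n + 2))) (Fin ((n + 1) * (n + 2))) ℤ :=
  Matrix.of (fun s s' => trE n a s s')

/-- The column of the powers, as a function of the number of the state. -/
def FF (n : ℕ) (a : ℕ → ℕ → ℤ) (i1 : Fin ((n + 1) * (n + 2))) (k s : ℕ) : ℤ :=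
  if hs : s < (n + 1) * (n + 2) then (TT n a ^ k) ⟨s, hs⟩ i1 else 0

lemma FF_succ (n : ℕ) (a : ℕ → ℕ → ℤ) (i1 : Fin ((n + 1) * (n + 2))) (k s : ℕ)
    (hs : s < (n + 1) * (n + 2)) : FF n a i1 (k + 1) s =
      ∑ s' ∈ Finset.range ((n + 1) * (n + 2)), trE n a s s' * FF n a i1 k s' := by
  rw [Finset.sum_range]
  unfold FF
  rw [dif_pos hs, pow_succ', Matrix.mul_apply]
  apply Finset.sum_congr rfl
  intro x _
  rw [dif_pos x.2]
  rfl

lemma sum_blocks (m w : ℕ) (g : ℕ → ℤ) : ∑ s ∈ Finset.range (m * w), g s =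
    ∑ h ∈ Finset.range m, ∑ u ∈ Finset.range w, g (h * w + u) := by
  induction m with
  | zero => simp
  | succ m ih => rw [Nat.succ_mul, Finset.sum_range_add, ih, Finset.sum_range_succ]

/-- The transfer matrix in the coordinates head, vertex. -/
def tr2 (n : ℕ) (a : ℕ → ℕ → ℤ) (h u h' u' : ℕ) : ℤ :=
  if u = n ∧ h < n then
    if h' = h + 1 ∧ u' = n then 1
    else if h' = h ∧ h < u' ∧ u' < n then -a h u'
    else if h' = h ∧ u' = n + 1 then -a h h
    else 0
  else if u < n ∧ h < u then
    if h' = h ∧ h < u' ∧ u' < n then a u u'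
    else if h' = h ∧ u' = n + 1 then a u h
    else 0
  else if u = n + 1 ∧ h < n then
    if h' = h + 1 ∧ u' = n then 1 else 0
  else 0

lemma trE_eq (n : ℕ) (a : ℕ → ℕ → ℤ) (h u h' u' : ℕ) (hu : u < n + 2) (hu' : u' < n + 2) :
    trE n a (h * (n + 2) + u) (h' * (n + 2) + u') = tr2 n a h u h' u' := by
  have e1 : (h * (n + 2) + u) % (n + 2) = u := by
    rw [Nat.mul_add_mod_self_right, Nat.mod_eq_of_lt hu]
  have e2 : (h * (n + 2) + u) / (n + 2) = h := by
    rw [mul_comm, Nat.mul_add_div (by omega), Nat.div_eq_of_lt hu, add_zero]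
  have e3 : (h' * (n + 2) + u') % (n + 2) = u' := by
    rw [Nat.mul_add_mod_self_right, Nat.mod_eq_of_lt hu']
  have e4 : (h' * (n + 2) + u') / (n + 2) = h' := by
    rw [mul_comm, Nat.mul_add_div (by omega), Nat.div_eq_of_lt hu', add_zero]
  unfold trE tr2
  rw [e1, e2, e3, e4]

lemma lt_state {n h u : ℕ} (hh : h ≤ n) (hu : u < n + 2) : h * (n + 2) + u < (n + 1) * (n + 2) := by
  have : h * (n + 2) ≤ n * (n + 2) := Nat.mul_le_mul_right _ hh
  have e : (n + 1) * (n + 2) = n * (n + 2) + (n + 2) := by ring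
  omega

lemma FF_rec (n : ℕ) (a : ℕ → ℕ → ℤ) (i1 : Fin ((n + 1) * (n + 2))) (k h u : ℕ) (hh : h ≤ n)
    (hu : u < n + 2) : FF n a i1 (k + 1) (h * (n + 2) + u) =
      ∑ h' ∈ Finset.range (n + 1), ∑ u' ∈ Finset.range (n + 2),
        tr2 n a h u h' u' * FF n a i1 k (h' * (n + 2) + u') := by
  rw [FF_succ n a i1 k _ (lt_state hh hu), sum_blocks]
  refine Finset.sum_congr rfl fun h' _ => Finset.sum_congr rfl fun u' hu' => ?_
  rw [trE_eq n a h u h' u' hu (Finset.mem_range.1 hu')]

lemma eqI (n : ℕ) (a : ℕ → ℕ → ℤ) (i1 : Fin ((n + 1) * (n + 2))) (k h : ℕ) (hh : h < n) :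
    FF n a i1 (k + 1) (h * (n + 2) + n) = FF n a i1 k ((h + 1) * (n + 2) + n) -
      a h h * FF n a i1 k (h * (n + 2) + (n + 1)) -
      ∑ u ∈ Finset.range n, if h < u then a h u * FF n a i1 k (h * (n + 2) + u) else 0 := by
  rw [FF_rec n a i1 k h n hh.le (by omega)]
  rw [Finset.sum_eq_add (h + 1) h (by omega)]
  · have h1 : ∑ u' ∈ Finset.range (n + 2), tr2 n a h n (h + 1) u' *
        FF n a i1 k ((h + 1) * (n + 2) + u') = FF n a i1 k ((h + 1) * (n + 2) + n) := by
      rw [Finset.sum_eq_single n]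
      · simp [tr2, hh]
      · intro u' _ hne
        simp [tr2, hh, hne]
      · intro hn
        simp at hn
    have h2 : ∑ u' ∈ Finset.range (n + 2), tr2 n a h n h u' * FF n a i1 k (h * (n + 2) + u') =
        (-∑ u ∈ Finset.range n, if h < u then a h u * FF n a i1 k (h * (n + 2) + u) else 0) -
          a h h * FF n a i1 k (h * (n + 2) + (n + 1)) := by
      rw [Finset.sum_range_succ, Finset.sum_range_succ]
      have e1 : tr2 n a h n h n = 0 := by simp [tr2, hh]
      have e2 : tr2 n a h n h (n + 1) = -a h h := by simp [tr2, hh]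
      have e3 : ∀ u' ∈ Finset.range n, tr2 n a h n h u' * FF n a i1 k (h * (n + 2) + u') =
          -(if h < u' then a h u' * FF n a i1 k (h * (n + 2) + u') else 0) := by
        intro u' hu'
        rw [Finset.mem_range] at hu'
        unfold tr2
        rw [if_pos ⟨rfl, hh⟩, if_neg (by omega)]
        by_cases hc : h < u'
        · rw [if_pos ⟨rfl, hc, hu'⟩, if_pos hc]
          ring
        · rw [if_neg (by omega), if_neg (by omega), if_neg hc]
          ring
      rw [Finset.sum_congr rfl e3, e1, e2, Finset.sum_neg_distrib]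
      ring
    rw [h1, h2]
    ring
  · intro h' _ hne
    refine Finset.sum_eq_zero fun u' _ => ?_
    simp [tr2, hh, hne.1, hne.2]
  · intro hn
    exact absurd (Finset.mem_range.2 (by omega)) hn
  · intro hn
    exact absurd (Finset.mem_range.2 (by omega)) hn

lemma eqD (n : ℕ) (a : ℕ → ℕ → ℤ) (i1 : Fin ((n + 1) * (n + 2))) (k h : ℕ) (hh : h < n) :
    FF n a i1 (k + 1) (h * (n + 2) + (n + 1)) = FF n a i1 k ((h + 1) * (n + 2) + n) := by
  rw [FF_rec n a i1 k h (n + 1) hh.le (by omega)]
  rw [Finset.sum_eq_single (h + 1)]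
  · rw [Finset.sum_eq_single n]
    · simp [tr2, hh]
    · intro u' _ hne
      simp [tr2, hne]
    · intro hn
      simp at hn
  · intro h' _ hne
    refine Finset.sum_eq_zero fun u' _ => ?_
    simp [tr2, hne]
  · intro hn
    exact absurd (Finset.mem_range.2 (by omega)) hn

lemma eqV (n : ℕ) (a : ℕ → ℕ → ℤ) (i1 : Fin ((n + 1) * (n + 2))) (k h u : ℕ) (hh : h < u)
    (hu : u < n) :
    FF n a i1 (k + 1) (h * (n + 2) + u) = a u h * FF n a i1 k (h * (n + 2) + (n + 1)) +
      ∑ u' ∈ Finset.range n, if h < u' then a u u' * FF n a i1 k (h * (n + 2) + u') else 0 := by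
  rw [FF_rec n a i1 k h u (by omega) (by omega)]
  rw [Finset.sum_eq_single h]
  · rw [Finset.sum_range_succ, Finset.sum_range_succ]
    have e1 : tr2 n a h u h n = 0 := by
      unfold tr2
      rw [if_neg (by omega), if_pos ⟨hu, hh⟩, if_neg (by omega), if_neg (by omega)]
    have e2 : tr2 n a h u h (n + 1) = a u h := by
      unfold tr2
      rw [if_neg (by omega), if_pos ⟨hu, hh⟩, if_neg (by omega), if_pos (by omega)]
    have e3 : ∀ u' ∈ Finset.range n, tr2 n a h u h u' * FF n a i1 k (h * (n + 2) + u') =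
        if h < u' then a u u' * FF n a i1 k (h * (n + 2) + u') else 0 := by
      intro u' hu'
      rw [Finset.mem_range] at hu'
      unfold tr2
      rw [if_neg (by omega), if_pos ⟨hu, hh⟩]
      by_cases hc : h < u'
      · rw [if_pos ⟨rfl, hc, hu'⟩, if_pos hc]
      · rw [if_neg (by omega), if_neg (by omega), if_neg hc]
        ring
    rw [Finset.sum_congr rfl e3, e1, e2]
    ring
  · intro h' _ hne
    refine Finset.sum_eq_zero fun u' _ => ?_
    unfold tr2
    rw [if_neg (by omega), if_pos ⟨hu, hh⟩, if_neg (by omega), if_neg (by omega), zero_mul]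
  · intro hn
    exact absurd (Finset.mem_range.2 (by omega)) hn

lemma eqN (n : ℕ) (a : ℕ → ℕ → ℤ) (i1 : Fin ((n + 1) * (n + 2))) (k : ℕ) :
    FF n a i1 (k + 1) (n * (n + 2) + n) = 0 := by
  rw [FF_rec n a i1 k n n le_rfl (by omega)]
  refine Finset.sum_eq_zero fun h' _ => Finset.sum_eq_zero fun u' _ => ?_
  simp [tr2]

lemma eq0 (n : ℕ) (a : ℕ → ℕ → ℤ) (i1 : Fin ((n + 1) * (n + 2))) (hi1 : i1.val = n * (n + 2) + n)
    (h u : ℕ) (hh : h ≤ n) (hu : u < n + 2) :
    FF n a i1 0 (h * (n + 2) + u) = if h = n ∧ u = n then 1 else 0 := by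
  unfold FF
  rw [dif_pos (lt_state hh hu), pow_zero, Matrix.one_apply]
  congr 1
  rw [Fin.ext_iff, hi1]
  apply propext
  constructor
  · intro h1
    have e1 : (h * (n + 2) + u) % (n + 2) = u := by
      rw [Nat.mul_add_mod_self_right, Nat.mod_eq_of_lt hu]
    have e2 : (n * (n + 2) + n) % (n + 2) = n := by
      rw [Nat.mul_add_mod_self_right, Nat.mod_eq_of_lt (by omega)]
    have h2 : h * (n + 2) + u = n * (n + 2) + n := h1
    have h3 : u = n := by rw [← e1, h2, e2]
    refine ⟨?_, h3⟩
    rw [h3] at h2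
    have h4 : h * (n + 2) = n * (n + 2) := by omega
    exact Nat.eq_of_mul_eq_mul_right (by omega) h4
  · rintro ⟨rfl, rfl⟩
    rfl

lemma sum_shift (n h N : ℕ) (hN : h + 1 + N = n) (g : ℕ → ℤ) :
    (∑ u ∈ Finset.range n, if h < u then g u else 0) = ∑ j : Fin N, g (h + 1 + j) := by
  rw [← hN, Finset.sum_range_add, Finset.sum_eq_zero, zero_add, Finset.sum_range]
  · refine Finset.sum_congr rfl fun j _ => ?_
    rw [if_pos (by omega)]
  · intro u hu
    rw [Finset.mem_range] at hu
    rw [if_neg (by omega)]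

open PowerSeries in
/-- The determinant. -/
noncomputable def PP (a : ℕ → ℕ → ℤ) (h N : ℕ) : PowerSeries ℤ :=
  (1 - (PowerSeries.X : PowerSeries ℤ) •
    (Matrix.of (fun i j : Fin N => PowerSeries.C (a (h + i) (h + j))))).det

lemma PP_ne (a : ℕ → ℕ → ℤ) (h N : ℕ) : PP a h N ≠ 0 := by
  intro h0
  have h1 : PowerSeries.constantCoeff (PP a h N) = 1 := by
    unfold PP
    rw [RingHom.map_det]
    have h2 : (PowerSeries.constantCoeff (R := ℤ)).mapMatrix (1 - (PowerSeries.X : PowerSeries ℤ) •
        (Matrix.of (fun i j : Fin N => PowerSeries.C (a (h + i) (h + j))))) = 1 := by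
      ext i j
      by_cases hij : i = j
      · subst hij
        simp
      · simp [hij]
    rw [h2, Matrix.det_one]
  rw [h0, map_zero] at h1
  exact zero_ne_one h1

lemma PP_coeff (a : ℕ → ℕ → ℤ) (n : ℕ) : PowerSeries.coeff n (PP a 0 n) =
    (-1) ^ n * (Matrix.of (fun i j : Fin n => a i j)).det := by
  have h1 : PP a 0 n = ((Matrix.of (fun i j : Fin n => a i j)).charpolyRev : PowerSeries ℤ) := by
    unfold PP Matrix.charpolyRev
    have h2 := RingHom.map_det (Polynomial.coeToPowerSeries.ringHom (R := ℤ))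
      (1 - (Polynomial.X : Polynomial ℤ) • (Matrix.of (fun i j : Fin n => a i j)).map Polynomial.C)
    rw [Polynomial.coeToPowerSeries.ringHom_apply] at h2
    rw [h2]
    congr 1
    ext1 i j
    by_cases hij : i = j
    · subst hij
      simp
      exact (map_intCast (Polynomial.coeToPowerSeries.ringHom (R := ℤ)) (a i i)).symm
    · simp [hij]
      exact (map_intCast (Polynomial.coeToPowerSeries.ringHom (R := ℤ)) (a i j)).symm
  rw [h1, Polynomial.coeff_coe, ← Matrix.reverse_charpoly, Polynomial.coeff_reverse,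
    Matrix.charpoly_natDegree_eq_dim, Fintype.card_fin, Polynomial.revAt_le le_rfl, Nat.sub_self]
  have h3 := Matrix.det_eq_sign_charpoly_coeff (Matrix.of (fun i j : Fin n => a i j))
  rw [Fintype.card_fin] at h3
  rw [h3, ← mul_assoc, ← mul_pow]
  simp

lemma main (hSCH : StSCH) (n : ℕ) (a : ℕ → ℕ → ℤ) (i1 : Fin ((n + 1) * (n + 2)))
    (hi1 : i1.val = n * (n + 2) + n) : ∀ N h : ℕ, h + N = n →
      PowerSeries.mk (fun k => FF n a i1 k (h * (n + 2) + n)) =
        (PowerSeries.X : PowerSeries ℤ) ^ N * PP a h N := by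
  intro N
  induction N with
  | zero =>
    intro h hN
    have hh : h = n := by omega
    subst hh
    have h1 : PP a h 0 = 1 := by
      unfold PP
      exact Matrix.det_isEmpty
    rw [h1, pow_zero, one_mul]
    ext k
    rw [PowerSeries.coeff_mk, PowerSeries.coeff_one]
    cases k with
    | zero =>
      rw [eq0 h a i1 hi1 h h le_rfl (by omega)]
      simp
    | succ k =>
      rw [eqN]
      simp
  | succ N ih =>
    intro h hN
    have hhn : h < n := by omega
    have hN' : h + 1 + N = n := by omega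
    have ih' := ih (h + 1) hN'
    obtain ⟨f, hf⟩ : ∃ f : PowerSeries ℤ,
      f = PowerSeries.mk (fun k => FF n a i1 k ((h + 1) * (n + 2) + n)) := ⟨_, rfl⟩
    obtain ⟨v, hv⟩ : ∃ v : Fin N → PowerSeries ℤ,
      v = fun j : Fin N => PowerSeries.mk (fun k => FF n a i1 k (h * (n + 2) + (h + 1 + (j : ℕ)))) := ⟨_, rfl⟩
    have hD : PowerSeries.X * f = PowerSeries.mk (fun k => FF n a i1 k (h * (n + 2) + (n + 1))) := by
      ext k
      rw [PowerSeries.coeff_mk]
      cases k with
      | zero =>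
        rw [PowerSeries.coeff_zero_X_mul, eq0 n a i1 hi1 h (n + 1) hhn.le (by omega),
          if_neg (by omega)]
      | succ k =>
        rw [PowerSeries.coeff_succ_X_mul, eqD n a i1 k h hhn, hf, PowerSeries.coeff_mk]
    have hV : ∀ i, v i = PowerSeries.X * (PowerSeries.C (a (h + 1 + i) h) * (PowerSeries.X * f)) +
        PowerSeries.X * ∑ j : Fin N, PowerSeries.C (a (h + 1 + i) (h + 1 + j)) * v j := by
      intro i
      ext k
      rw [hD]
      cases k with
      | zero =>
        rw [map_add, PowerSeries.coeff_zero_X_mul, PowerSeries.coeff_zero_X_mul, hv]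
        simp only [PowerSeries.coeff_mk]
        rw [eq0 n a i1 hi1 h (h + 1 + i) hhn.le (by omega), if_neg (by omega)]
        simp
      | succ k =>
        rw [map_add, PowerSeries.coeff_succ_X_mul, PowerSeries.coeff_succ_X_mul,
          PowerSeries.coeff_C_mul, map_sum, hv]
        simp only [PowerSeries.coeff_C_mul, PowerSeries.coeff_mk]
        rw [eqV n a i1 k h (h + 1 + i) (by omega) (by omega), sum_shift n h N hN']
    have hI : PowerSeries.mk (fun k => FF n a i1 k (h * (n + 2) + n)) =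
        PowerSeries.X * f - PowerSeries.X * (PowerSeries.C (a h h) * (PowerSeries.X * f)) -
          PowerSeries.X * ∑ j : Fin N, PowerSeries.C (a h (h + 1 + j)) * v j := by
      ext k
      rw [PowerSeries.coeff_mk]
      cases k with
      | zero =>
        rw [map_sub, map_sub, PowerSeries.coeff_zero_X_mul, PowerSeries.coeff_zero_X_mul,
          PowerSeries.coeff_zero_X_mul, eq0 n a i1 hi1 h n hhn.le (by omega), if_neg (by omega)]
        simp
      | succ k =>
        rw [map_sub, map_sub, PowerSeries.coeff_succ_X_mul, PowerSeries.coeff_succ_X_mul,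
          PowerSeries.coeff_succ_X_mul, PowerSeries.coeff_C_mul, map_sum, hD, hv, hf]
        simp only [PowerSeries.coeff_C_mul, PowerSeries.coeff_mk]
        rw [eqI n a i1 k h hhn, sum_shift n h N hN']
    have h1 := hSCH ℤ a h N f v hV
    rw [← hI] at h1
    have h2 : PP a (h + 1) N * PowerSeries.mk (fun k => FF n a i1 k (h * (n + 2) + n)) =
        PowerSeries.X * f * PP a h (N + 1) := h1
    apply mul_left_cancel₀ (PP_ne a (h + 1) N)
    rw [h2, hf, ih']
    ring

end TRF

open TRF

theorem hTRF (hSCH : StSCH) : StTRF := by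
  intro n a i0 i1 hi0 hi1
  have h1 := main hSCH n a i1 hi1 n 0 (by omega)
  have h2 := congrArg (PowerSeries.coeff (2 * n)) h1
  rw [PowerSeries.coeff_mk, two_mul, PowerSeries.coeff_X_pow_mul, PP_coeff] at h2
  rw [← h2, two_mul]
  unfold FF
  rw [dif_pos (lt_state (Nat.zero_le n) (by omega))]
  have h3 : i0 = ⟨0 * (n + 2) + n, lt_state (Nat.zero_le n) (by omega)⟩ := by
    rw [Fin.ext_iff, hi0]
    simp
  rw [h3]
  rfl

end Pool.Agent.Helper29.GS
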